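import Pool.Agent.H41.CP.Stmts

/-!
# Project CP (helper41), part G3: a vertex of degree four with two neighbours of degree five
-/

set_option autoImplicit false
set_option linter.all false

namespace Pool.Agent.H747.CP

open Pool.Agent.H41.CP

theorem ais (τ : P6) (x : Fin 6) : τ (τ⁻¹ x) = x := τ.apply_symm_apply x

theorem ias (τ : P6) (x : Fin 6) : τ⁻¹ (τ x) = x := τ.symm_apply_apply x

section

variable {V : Type} [DecidableEq V] {G : SimpleGraph V} [DecidableRel G.Adj] {σ : V → V → P6}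

theorem mem_nb {W : Finset V} {u x : V} : x ∈ nb G W u ↔ x ∈ W ∧ G.Adj u x := by
  unfold nb
  rw [Finset.mem_filter]

/-- One vertex extension. -/
theorem ext1 (hσ : ∀ u v, G.Adj u v → σ v u = (σ u v)⁻¹) {W : Finset V} {w : V} {φ : V → P6}
    (hφ : Packs G σ (W.erase w) φ) {s : P6}
    (hs : ∀ x ∈ nb G W w, ∀ i, s i ≠ σ x w (φ x i)) : Packs G σ W (Function.update φ w s) := by
  intro a ha b hb hab i
  by_cases h1 : a = w
  · subst h1
    have h2 : b ≠ a := hab.ne'
    rw [Function.update_self, Function.update_of_ne h2]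
    have h3 := hs b (mem_nb.2 ⟨hb, hab⟩) i
    rw [hσ a b hab] at h3
    intro h4
    apply h3
    rw [h4, ias]
  · by_cases h2 : b = w
    · subst h2
      rw [Function.update_self, Function.update_of_ne h1]
      exact hs a (mem_nb.2 ⟨ha, hab.symm⟩) i
    · rw [Function.update_of_ne h1, Function.update_of_ne h2]
      exact hφ a (Finset.mem_erase.2 ⟨h1, ha⟩) b (Finset.mem_erase.2 ⟨h2, hb⟩) hab i

/-- Recolouring. -/
theorem recol (hσ : ∀ u v, G.Adj u v → σ v u = (σ u v)⁻¹) {W : Finset V} {φ : V → P6}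
    (hφ : Packs G σ W φ) {u : V} (hu : u ∈ W) (hc : (nb G W u).card = 4) (τ : P6) :
    ∃ H : Fin 4 → P6, Av H (τ * φ u) ∧
      ∀ g, Av H g → Packs G σ W (Function.update φ u (τ⁻¹ * g)) := by
  have e : Fin 4 ≃ nb G W u := by
    rw [← hc]
    exact (nb G W u).equivFin.symm
  refine ⟨fun i => τ * (σ (e i) u * φ (e i)), ?_, ?_⟩
  · intro i x
    have h1 := mem_nb.1 (e i).2
    have h2 := hφ (e i) h1.1 u hu h1.2.symm x
    show τ (φ u x) ≠ τ (σ (e i) u (φ (e i) x))
    exact fun h3 => h2 (τ.injective h3)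
  · intro g hg
    refine ext1 hσ ?_ ?_
    · intro a ha b hb hab i
      exact hφ a (Finset.mem_of_mem_erase ha) b (Finset.mem_of_mem_erase hb) hab i
    · intro x hx i h3
      have h4 := hg (e.symm ⟨x, hx⟩) i
      apply h4
      show g i = τ (σ (e (e.symm ⟨x, hx⟩)) u (φ (e (e.symm ⟨x, hx⟩)) i))
      rw [Equiv.apply_symm_apply, ← h3]
      show g i = τ (τ⁻¹ (g i))
      rw [ais]

end

theorem g3 (hk : S_KILLER) (hd : S_DOUBLE) : S_G3 := by
  intro V _ G _ σ hσ W w u v hw hu hv huv hwu hwv dw du dv φ hφ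
  have hcu : ∀ t, t ∈ W → G.Adj w t → dg G W t = 5 → (nb G (W.erase w) t).card = 4 := by
    intro t ht hwt hdt
    have h1 : nb G (W.erase w) t = (nb G W t).erase w := by
      ext x
      rw [mem_nb, Finset.mem_erase, Finset.mem_erase, mem_nb]
      tauto
    rw [h1, Finset.card_erase_of_mem (mem_nb.2 ⟨hw, hwt.symm⟩)]
    unfold dg at hdt
    omega
  have huW : u ∈ W.erase w := Finset.mem_erase.2 ⟨hwu.ne', hu⟩
  have hvW : v ∈ W.erase w := Finset.mem_erase.2 ⟨hwv.ne', hv⟩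
  -- the neighbours of `w`
  obtain ⟨y, z, hyu, hyv, hzu, hzv, hall⟩ : ∃ y z : V, y ≠ u ∧ y ≠ v ∧ z ≠ u ∧ z ≠ v ∧
      ∀ x ∈ nb G W w, x = u ∨ x = v ∨ x = y ∨ x = z := by
    have h1 : (((nb G W w).erase u).erase v).card = 2 := by
      rw [Finset.card_erase_of_mem
        (Finset.mem_erase.2 ⟨huv.symm, mem_nb.2 ⟨hv, hwv⟩⟩),
        Finset.card_erase_of_mem (mem_nb.2 ⟨hu, hwu⟩)]
      unfold dg at dw
      omega
    obtain ⟨y, z, _, hyz⟩ := Finset.card_eq_two.1 h1
    have hy : y ∈ ((nb G W w).erase u).erase v := by rw [hyz]; simp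
    have hz : z ∈ ((nb G W w).erase u).erase v := by rw [hyz]; simp
    rw [Finset.mem_erase, Finset.mem_erase] at hy hz
    refine ⟨y, z, hy.2.1, hy.1, hz.2.1, hz.1, fun x hx => ?_⟩
    by_cases h2 : x = u
    · exact Or.inl h2
    by_cases h3 : x = v
    · exact Or.inr (Or.inl h3)
    have h4 : x ∈ ((nb G W w).erase u).erase v :=
      Finset.mem_erase.2 ⟨h3, Finset.mem_erase.2 ⟨h2, hx⟩⟩
    rw [hyz, Finset.mem_insert, Finset.mem_singleton] at h4
    exact Or.inr (Or.inr h4)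
  obtain ⟨H, hH1, hH2⟩ := recol hσ hφ huW (hcu u hu hwu du) (σ u w)
  obtain ⟨g, hg, hg'⟩ := hd H ![σ v w * φ v, σ y w * φ y, σ z w * φ z] ⟨_, hH1⟩
  have hφ1 := hH2 g hg
  set φ1 := Function.update φ u ((σ u w)⁻¹ * g) with hφ1d
  have e1u : φ1 u = (σ u w)⁻¹ * g := Function.update_self _ _ _
  have e1v : φ1 v = φ v := Function.update_of_ne huv.symm _ _
  have e1y : φ1 y = φ y := Function.update_of_ne hyu _ _
  have e1z : φ1 z = φ z := Function.update_of_ne hzu _ _
  rcases hg' with hg' | hg'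
  · unfold Bad at hg'
    rw [not_not] at hg'
    obtain ⟨s, hs⟩ := hg'
    refine ⟨_, ext1 hσ hφ1 (s := s) ?_⟩
    intro x hx i
    rcases hall x hx with rfl | rfl | rfl | rfl
    · rw [e1u]
      show s i ≠ σ x w ((σ x w)⁻¹ (g i))
      rw [ais]
      exact (hs i).1
    · rw [e1v]
      exact (hs i).2 0
    · rw [e1y]
      exact (hs i).2 1
    · rw [e1z]
      exact (hs i).2 2
  · obtain ⟨H2, hH21, hH22⟩ := recol hσ hφ1 hvW (hcu v hv hwv dv) (σ v w)
    have h5 : ∃ g2, Av H2 g2 ∧ ¬ Bad ![g, σ y w * φ y, σ z w * φ z] g2 := by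
      by_contra hno
      push Not at hno
      obtain ⟨S, T, hQ⟩ := hk H2 ![g, σ y w * φ y, σ z w * φ z] ⟨_, hH21⟩ hno
      exact hg' S T hQ
    obtain ⟨g2, hg2, hB⟩ := h5
    have hφ2 := hH22 g2 hg2
    unfold Bad at hB
    rw [not_not] at hB
    obtain ⟨s, hs⟩ := hB
    set φ2 := Function.update φ1 v ((σ v w)⁻¹ * g2) with hφ2d
    have e2v : φ2 v = (σ v w)⁻¹ * g2 := Function.update_self _ _ _
    have e2u : φ2 u = (σ u w)⁻¹ * g := (Function.update_of_ne huv _ _).trans e1u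
    have e2y : φ2 y = φ y := (Function.update_of_ne hyv _ _).trans e1y
    have e2z : φ2 z = φ z := (Function.update_of_ne hzv _ _).trans e1z
    refine ⟨_, ext1 hσ hφ2 (s := s) ?_⟩
    intro x hx i
    rcases hall x hx with rfl | rfl | rfl | rfl
    · rw [e2u]
      show s i ≠ σ x w ((σ x w)⁻¹ (g i))
      rw [ais]
      exact (hs i).2 0
    · rw [e2v]
      show s i ≠ σ x w ((σ x w)⁻¹ (g2 i))
      rw [ais]
      exact (hs i).1
    · rw [e2y]
      exact (hs i).2 1
    · rw [e2z]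
      exact (hs i).2 2

end Pool.Agent.H747.CP
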